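import Pool.Agent.N219.DE.Final
import Pool.Agent.N219.DE.Example

/-!
# MP_7e3c50_an: pointwise exponential decay of small bounded solutions of `A u' = Q(u)`
-/

namespace Pool.Agent.Results.MP_7e3c50_an.PointwiseDecay

open Pool.Agent.N219.DE

universe w

/-- For all data `(A, B, V, up)` satisfying (H1), (H3), (H4), (H5) on a real (first part) or
complex (second part) Hilbert space: the positive result `PositiveResult` (see its docstring)
holds, and arbitrarily close to `up` there are constant solutions different from `up`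
(`LiteralFails`). Third part: such data exist. -/
theorem result :
    (∀ (H : Type w) [NormedAddCommGroup H] [InnerProductSpace ℝ H] [CompleteSpace H]
        (A : H →L[ℝ] H) (V : Submodule ℝ H) (B : H →L[ℝ] H →L[ℝ] H) (up : H),
        Hyp A V B up → PositiveResult A V B up ∧ LiteralFails A B up) ∧
    (∀ (H : Type w) [NormedAddCommGroup H] [InnerProductSpace ℂ H] [CompleteSpace H]
        (A : H →L[ℂ] H) (V : Submodule ℂ H) (B : H →L[ℂ] H →L[ℂ] H) (up : H),
        Hyp A V B up → PositiveResult A V B up ∧ LiteralFails A B up) ∧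
    (∃ (A : ℂ →L[ℝ] ℂ) (V : Submodule ℝ ℂ) (B : ℂ →L[ℝ] ℂ →L[ℝ] ℂ) (up : ℂ),
        Hyp A V B up ∧ PositiveResult A V B up ∧ LiteralFails A B up) := by
  refine ⟨?_, ?_, ?_⟩
  · intro H _ _ _ A V B up h
    exact ⟨positive_real h, literal_real h⟩
  · intro H _ _ _ A V B up h
    exact ⟨positive_complex h, literal_complex h⟩
  · exact ⟨exA, exV, exB, Complex.I, exHyp, positive_real exHyp, literal_real exHyp⟩

end Pool.Agent.Results.MP_7e3c50_an.PointwiseDecay
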